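import Pool.Agent.U693.SH.Down
import Pool.Agent.TH841.NF.ShaN

/-!
# The Tate-Shafarevich group of a subfield
-/

set_option autoImplicit false
set_option linter.all false

open NumberField IsDedekindDomain WithZero WeierstrassCurve WeierstrassCurve.Affine
open scoped NNReal Classical

namespace Pool.Agent.U693.SH

open Pool.Agent.TH115.GD
open Pool.Agent.R425.G
open Pool.Agent.N874.PP (sW)
open Pool.Agent.N874.PM (SelR ShaR)

variable {A B : ℤ}

theorem sep_closed (M : Type) [Field M] [CharZero M] : IsAlgClosed (Sep M) := by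
  haveI : CharZero (Sep M) := charZero_of_injective_algebraMap (algebraMap M (Sep M)).injective
  infer_instance

/-- If `M / F` is Galois, `E(M) = 0` and `Ш(E / M)[2^∞] = 0` then `Ш(E / F)[2^∞] = 0`. -/
theorem sha_down {F M : Type} [Field F] [NumberField F] [Field M] [NumberField M] [Algebra F M]
    [IsGalois F M] (hpt : Subsingleton (Pt (sW (A : M) (B : M)) M))
    (hS : ShaR (𝓞 M) (sW (A : M) (B : M))) (n : ℕ)
    (s : Pool.Agent.TH841.NF.D.Sha (sW (A : F) (B : F))) (hs : 2 ^ n • s = 0) : s = 0 := by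
  haveI : IsScalarTower F M (Sep M) := inferInstance
  haveI : Algebra.IsAlgebraic M (Sep M) := inferInstance
  haveI hac : IsAlgClosed (Sep M) := sep_closed M
  haveI : Algebra.IsAlgebraic F (Sep M) := Algebra.IsAlgebraic.trans F M _
  haveI : IsAlgClosure F (Sep M) := ⟨inferInstance, inferInstance⟩
  haveI : IsGalois F (AlgebraicClosure F) := by
    haveI : CharZero F := inferInstance
    infer_instance
  haveI : IsGalois F (Sep M) := IsAlgClosure.isGalois F _
  let ε : AlgebraicClosure F ≃ₐ[F] Sep M :=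
    IsAlgClosure.equiv F (AlgebraicClosure F) (Sep M)
  obtain ⟨f, rfl⟩ := QuotientAddGroup.mk_surjective
    (s := (Pool.Agent.TH841.SH.D.cob (sW (A : F) (B : F))).addSubgroupOf
      (Pool.Agent.TH841.NF.D.shaCoc (sW (A : F) (B : F)))) s
  have h2 : (QuotientAddGroup.mk (2 ^ n • f) :
    (Pool.Agent.TH841.NF.D.shaCoc (sW (A : F) (B : F))) ⧸
    (Pool.Agent.TH841.SH.D.cob (sW (A : F) (B : F))).addSubgroupOf
      (Pool.Agent.TH841.NF.D.shaCoc (sW (A : F) (B : F)))) = 0 := hs
  rw [QuotientAddGroup.eq_zero_iff, AddSubgroup.mem_addSubgroupOf] at h2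
  obtain ⟨P, hP⟩ := h2
  have hP' : ∀ σ, 2 ^ n • f.1 σ =
      Pool.Agent.TH841.SH.D.act (sW (A : F) (B : F)) σ.toAlgHom P - P := fun σ => hP σ
  set e := tq A B F (AlgebraicClosure F) with he
  have nat : ∀ (σ : AlgebraicClosure F ≃ₐ[F] AlgebraicClosure F)
      (R : Pt (sW (A : F) (B : F)) (AlgebraicClosure F)),
      e (Pool.Agent.TH841.SH.D.act (sW (A : F) (B : F)) σ.toAlgHom R) =
        act (cQ A B) (rs ℚ σ) (e R) := fun σ R =>
    tq_act (K := F) A B σ.toAlgHom (rs ℚ σ) (fun x => rfl) R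
  set g : (AlgebraicClosure F ≃ₐ[F] AlgebraicClosure F) → Pt (cQ A B) (AlgebraicClosure F) :=
    fun σ => e (f.1 σ) with hg
  have hgc : IsCoc (F := F) (cQ A B) g := by
    refine ⟨f.2.1.1.comp _, fun σ τ => ?_⟩
    show e (f.1 (σ * τ)) = e (f.1 σ) + act (cQ A B) (rs ℚ σ) (e (f.1 τ))
    refine (congrArg e (f.2.1.2 σ τ)).trans ((map_add e _ _).trans ?_)
    exact congrArg (fun z => e (f.1 σ) + z) (nat σ (f.1 τ))
  have hgn : ∀ σ, 2 ^ n • g σ = act (cQ A B) (rs ℚ σ) (e P) - e P := fun σ =>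
    (map_nsmul e (2 ^ n) (f.1 σ)).symm.trans ((congrArg e (hP' σ)).trans
      ((map_sub e _ _).trans (congrArg (fun z => z - e P) (nat σ P))))
  have hloc : ∀ v : HeightOneSpectrum (𝓞 F), LocTriv (F := F) (Ω := AlgebraicClosure F) (cQ A B)
      (v.adicCompletion F) (AlgebraicClosure (v.adicCompletion F)) g := by
    intro v
    let ι : AlgebraicClosure F →ₐ[F] AlgebraicClosure (v.adicCompletion F) := IsAlgClosed.lift
    obtain ⟨P0, hP0⟩ := f.2.2.1 v ι
    set e' := tq A B F (AlgebraicClosure (v.adicCompletion F)) with he'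
    refine ⟨ι, e' P0, fun τ σ h => ?_⟩
    have h1 := hP0 τ σ h
    have e1 := tq_act (K := F) A B ι (ι.restrictScalars ℚ) (fun x => rfl) (f.1 σ)
    have e2 := tq_act (K := F) A B (AlgHom.restrictScalars F τ.toAlgHom) (rs ℚ τ)
      (fun x => rfl) P0
    refine e1.symm.trans ((congrArg e' h1).trans ?_)
    refine (map_sub e' _ _).trans ?_
    exact congrArg (fun z => z - e' P0) e2
  have hcoc : IsCoc (F := M) (cQ A B) (fun σ : Sep M ≃ₐ[M] Sep M =>
      cj (cQ A B) ε g (σ.restrictScalars F)) := by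
    refine ⟨?_, fun σ τ => cj_mul ε hgc (σ.restrictScalars F) (τ.restrictScalars F)⟩
    have h2 : IsLocallyConstant (fun σ : Sep M ≃ₐ[F] Sep M =>
        cj (cQ A B) ε g σ) := (hgc.1.comp_continuous (cont_cj ε)).comp (act (cQ A B) (eq' ε))
    exact h2.comp_continuous cont_rs
  obtain ⟨Q, hQ⟩ := shaQ A B hS _ hcoc
    (fun w => by
      obtain ⟨v, j, hj⟩ := exists_below (F := F) w
      haveI : IsGalois (v.adicCompletion F) (AlgebraicClosure (v.adicCompletion F)) := by
        haveI : CharZero (v.adicCompletion F) := algebraRat.charZero _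
        infer_instance
      haveI : Algebra.IsSeparable M (Sep M) := inferInstance
      haveI : IsScalarTower ℚ F (Sep (Comp (𝓞 M) M w)) :=
        IsScalarTower.of_algebraMap_eq fun x => RingHom.congr_fun (Subsingleton.elim
          (algebraMap ℚ (Sep (Comp (𝓞 M) M w)))
          ((algebraMap F (Sep (Comp (𝓞 M) M w))).comp (algebraMap ℚ F))) x
      exact loc_bc (L := v.adicCompletion F) (Ω' := AlgebraicClosure (v.adicCompletion F))
        (E := Comp (𝓞 M) M w) (Ω'' := Sep (Comp (𝓞 M) M w)) ε hgc j hj IsSepClosed.lift (hloc v))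
    n (act (cQ A B) (eq' ε) (e P)) (fun σ => by
      have h6 : 2 ^ n • cj (cQ A B) ε g (σ.restrictScalars F) =
          act (cQ A B) (eq' ε) (act (cQ A B)
            (rs ℚ ((ε.trans (σ.restrictScalars F)).trans ε.symm)) (e P) - e P) := by
        rw [← hgn]
        exact (map_nsmul (act (cQ A B) (eq' ε)) _ _).symm
      rw [h6, map_sub, act_act, act_act]
      congr 3
      apply AlgHom.ext
      intro x
      show ε (ε.symm (σ (ε x))) = σ (ε x)
      rw [ε.apply_symm_apply])
  have hnp : ∀ P : Pt (cQ A B) M, P = 0 := by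
    intro P
    have h5 : (tq A B M M).symm P = 0 := Subsingleton.elim _ _
    rw [← (tq A B M M).apply_symm_apply P, h5, map_zero]
  have h3 := inflP (presF F M (Sep M)) hnp (g := fun σ => cj (cQ A B) ε g σ)
    (fun σ τ => cj_mul ε hgc σ τ) hQ
  obtain ⟨T, hT⟩ := backP ε h3
  refine (QuotientAddGroup.eq_zero_iff f).2 ?_
  rw [AddSubgroup.mem_addSubgroupOf]
  refine ⟨e.symm T, fun σ => ?_⟩
  apply e.injective
  refine (hT σ).trans ?_
  refine Eq.trans ?_ (map_sub e _ _).symm
  refine congrArg₂ (fun x y => x - y) ?_ (e.apply_symm_apply T).symm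
  rw [nat, e.apply_symm_apply]

end Pool.Agent.U693.SH
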