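import Pool.Agent.U693.SH.Tr

/-!
# From a Galois extension without points to the base field
-/

set_option autoImplicit false
set_option linter.all false

open NumberField IsDedekindDomain WithZero WeierstrassCurve WeierstrassCurve.Affine
open scoped NNReal Classical

namespace Pool.Agent.U693.SH

open Pool.Agent.TH115.GD
open Pool.Agent.R425.G
open Pool.Agent.N874.PP (sW)
open Pool.Agent.N874.PM (SelR ShaR)

section abs

variable {V : WeierstrassCurve ℚ} {F Ω M Ω2 : Type} [Field F] [Field Ω] [Field M] [Field Ω2]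
  [Algebra ℚ F] [Algebra F Ω] [Algebra ℚ Ω] [IsScalarTower ℚ F Ω] [Algebra ℚ M] [Algebra M Ω2]
  [Algebra ℚ Ω2] [IsScalarTower ℚ M Ω2] [Algebra F M] [Algebra F Ω2] [IsScalarTower F M Ω2]
  [IsScalarTower ℚ F Ω2] [IsGalois F Ω] [IsGalois M Ω2] [IsSepClosed Ω2]

/-- A cocycle over `F` which is trivial over `M` is trivial, if there are no points over `M`. -/
theorem inflP (hN : Preserves F M Ω2) (hnp : ∀ P : Pt V M, P = 0)
    {g : (Ω2 ≃ₐ[F] Ω2) → Pt V Ω2}
    (hg : ∀ σ τ, g (σ * τ) = g σ + act V (rs ℚ σ) (g τ))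
    {T : Pt V Ω2}
    (hgT : ∀ σ : Ω2 ≃ₐ[M] Ω2,
      g (σ.restrictScalars F) = act V (rs ℚ σ) T - T) (σ : Ω2 ≃ₐ[F] Ω2) :
    g σ = act V (rs ℚ σ) T - T := by
  have haa : ∀ (σ ρ : Ω2 ≃ₐ[F] Ω2) (P : Pt V Ω2),
      act V (rs ℚ (σ * ρ)) P = act V (rs ℚ σ) (act V (rs ℚ ρ) P) := by
    intro σ ρ P
    rw [act_act]
    rfl
  set h : (Ω2 ≃ₐ[F] Ω2) → Pt V Ω2 := fun σ => g σ - (act V (rs ℚ σ) T - T) with hh
  have hhm : ∀ σ τ, h (σ * τ) = h σ + act V (rs ℚ σ) (h τ) := by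
    intro σ τ
    simp only [hh]
    rw [hg, haa, map_sub, map_sub]
    abel
  have hh0 : ∀ τ : Ω2 ≃ₐ[M] Ω2, h (τ.restrictScalars F) = 0 := by
    intro τ
    simp only [hh]
    rw [hgT]
    exact sub_self _
  have hfix : ∀ τ : Ω2 ≃ₐ[M] Ω2, act V (rs ℚ τ) (h σ) = h σ := by
    intro τ
    obtain ⟨τ', hτ'⟩ := exists_conj hN σ τ
    have e1 : (τ.restrictScalars F) * σ = σ * (τ'.restrictScalars F) := by
      apply AlgEquiv.ext
      intro x
      exact (hτ' x).symm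
    have e2 := hhm (τ.restrictScalars F) σ
    rw [e1, hhm, hh0, hh0, map_zero, add_zero, zero_add] at e2
    exact e2.symm
  obtain ⟨R, hR⟩ := fixed_point (K := ℚ) (F := M) V (h σ) hfix
  rw [hnp R, map_zero] at hR
  exact sub_eq_zero.1 hR.symm

/-- Back to the first closure. -/
theorem backP (ε : Ω ≃ₐ[F] Ω2) {f : (Ω ≃ₐ[F] Ω) → Pt V Ω} {T : Pt V Ω2}
    (h : ∀ σ : Ω2 ≃ₐ[F] Ω2, cj V ε f σ = act V (rs ℚ σ) T - T) :
    ∃ T' : Pt V Ω, ∀ σ, f σ = act V (rs ℚ σ) T' - T' := by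
  refine ⟨act V (ε.symm.toAlgHom.restrictScalars ℚ) T, fun σ => ?_⟩
  have h4 := h ((ε.symm.trans σ).trans ε)
  have h5 : cj V ε f ((ε.symm.trans σ).trans ε) = act V (eq' ε) (f σ) := by
    unfold cj
    congr 2
    apply AlgEquiv.ext
    intro x
    show ε.symm (ε (σ (ε.symm (ε x)))) = σ x
    rw [ε.symm_apply_apply, ε.symm_apply_apply]
  have h6 : act V (eq' ε) (f σ) = act V (rs ℚ ((ε.symm.trans σ).trans ε)) T - T :=
    h5.symm.trans h4
  apply act_inj V (eq' ε)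
  have e3 : (eq' ε).comp (ε.symm.toAlgHom.restrictScalars ℚ) = AlgHom.id ℚ Ω2 := by
    apply AlgHom.ext
    intro x
    show ε (ε.symm x) = x
    rw [ε.apply_symm_apply]
  have e4 : act V (AlgHom.id ℚ Ω2) T = T := by
    rcases T with _ | ⟨x, y, hxy⟩ <;> rfl
  have e5 : ((eq' ε).comp (rs ℚ σ)).comp (ε.symm.toAlgHom.restrictScalars ℚ) =
      rs ℚ ((ε.symm.trans σ).trans ε) := by
    apply AlgHom.ext
    intro x
    rfl
  rw [h6, map_sub, act_act, act_act, act_act, e5, e3, e4]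

end abs

section sha

variable (A B : ℤ)

/-- The hypothesis in terms of the curve over `ℚ`. -/
theorem shaQ {M : Type} [Field M] [NumberField M] (hS : ShaR (𝓞 M) (sW (A : M) (B : M)))
    (g : (Sep M ≃ₐ[M] Sep M) → Pt (cQ A B) (Sep M)) (hg : IsCoc (F := M) (cQ A B) g)
    (hloc : ∀ v : HeightOneSpectrum (𝓞 M),
      LocTriv (F := M) (cQ A B) (Comp (𝓞 M) M v) (Sep (Comp (𝓞 M) M v)) g)
    (n : ℕ) (Q : Pt (cQ A B) (Sep M))
    (hQ : ∀ σ : Sep M ≃ₐ[M] Sep M, 2 ^ n • g σ = act (cQ A B) (rs ℚ σ) Q - Q) :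
    ∃ Q : Pt (cQ A B) (Sep M), ∀ σ : Sep M ≃ₐ[M] Sep M,
      g σ = act (cQ A B) (rs ℚ σ) Q - Q := by
  set e := tq A B M (Sep M) with he
  set f : (Sep M ≃ₐ[M] Sep M) → Pt (sW (A : M) (B : M)) (Sep M) := fun σ => e.symm (g σ) with hf
  have hef : ∀ σ, e (f σ) = g σ := fun σ => e.apply_symm_apply _
  have nat : ∀ (σ : Sep M ≃ₐ[M] Sep M) (P : Pt (sW (A : M) (B : M)) (Sep M)),
      e (act (sW (A : M) (B : M)) (rs M σ) P) = act (cQ A B) (rs ℚ σ) (e P) := fun σ P =>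
    tq_act (K := M) A B _ _ (fun x => rfl) P
  obtain ⟨R, hR⟩ := hS f ⟨hg.lc.comp _, fun σ τ => by
      apply e.injective
      rw [map_add, nat, hef, hef, hef]
      exact hg.mul σ τ⟩
    (fun v => by
      obtain ⟨ι, P, hP⟩ := hloc v
      set e' := tq A B M (Sep (Comp (𝓞 M) M v)) with he'
      refine ⟨ι, e'.symm P, fun τ σ h => ?_⟩
      apply e'.injective
      have e1 := tq_act (K := M) A B (ι.restrictScalars M) (ι.restrictScalars ℚ) (fun x => rfl) (f σ)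
      have e2 := tq_act (K := M) A B (rs M τ) (rs ℚ τ) (fun x => rfl) (e'.symm P)
      have e3 := hP τ σ h
      refine e1.trans ?_
      rw [map_sub]
      refine Eq.trans ?_ (e3.trans ?_)
      · rw [← he, hef]
      · refine congrArg₂ (fun x y => x - y) ?_ ?_
        · refine Eq.trans ?_ e2.symm
          rw [← he', AddEquiv.apply_symm_apply]
        · exact (e'.apply_symm_apply P).symm)
    ⟨n, e.symm Q, fun σ => by
      apply e.injective
      rw [map_nsmul, map_sub, nat, hef, hQ, e.apply_symm_apply]⟩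
  refine ⟨e R, fun σ => ?_⟩
  rw [← hef, hR, map_sub, nat]

end sha

/-- The places below. -/
theorem exists_below {F M : Type} [Field F] [NumberField F] [Field M] [NumberField M] [Algebra F M]
    (w : HeightOneSpectrum (𝓞 M)) : ∃ (v : HeightOneSpectrum (𝓞 F))
      (j : v.adicCompletion F →+* w.adicCompletion M),
      ∀ x : F, j (algebraMap F _ x) = algebraMap M _ (algebraMap F M x) := by
  let v : HeightOneSpectrum (𝓞 F) := w.under (𝓞 F)
  haveI hlo : w.asIdeal.LiesOver v.asIdeal := ⟨rfl⟩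
  have hval : ∀ x : F, v.valuation F x ^ v.asIdeal.ramificationIdx' w.asIdeal =
      w.valuation M (algebraMap F M x) := fun x =>
    HeightOneSpectrum.valuation_liesOver (A := 𝓞 F) M v w x
  have he : v.asIdeal.ramificationIdx' w.asIdeal ≠ 0 :=
    Ideal.IsDedekindDomain.ramificationIdx'_ne_zero_of_liesOver w.asIdeal v.ne_bot
  obtain ⟨j, hj1, -, -⟩ := exists_compl_map v w (algebraMap F M)
    (fun x hx => by rw [← hval]; exact pow_le_one₀ zero_le hx)
    (fun x hx => by rw [← hval]; exact pow_lt_one₀ zero_le hx he)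
  exact ⟨v, j, fun x => hj1 x⟩

end Pool.Agent.U693.SH
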