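import Pool.Agent.R425.G.Cl6
import Pool.Agent.N922.PQ.Final2

/-!
# The Tate-Shafarevich groups of subfields

Let `M / F` be a Galois extension of number fields and `E : y ^ 2 = x ^ 3 + A x + B` with `E(M) = 0`. If
the 2-primary part of the Tate-Shafarevich group of `E` over `M` is zero, then the one over `F` is zero,
too.
-/

set_option autoImplicit false
set_option linter.all false

open NumberField IsDedekindDomain WithZero WeierstrassCurve WeierstrassCurve.Affine
open scoped NNReal Classical

namespace Pool.Agent.U693.SH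

open Pool.Agent.TH115.GD
open Pool.Agent.R425.G
open Pool.Agent.N874.PP (sW)
open Pool.Agent.N874.PM (SelR ShaR)

section eqv

variable {L : Type} [Field L]

/-- Equal curves have the same points. -/
noncomputable def eqv {U₁ U₂ : WeierstrassCurve L} (h : U₁ = U₂) :
    U₁.toAffine.Point ≃+ U₂.toAffine.Point := by
  subst h
  exact AddEquiv.refl _

theorem eqv_zero {U₁ U₂ : WeierstrassCurve L} (h : U₁ = U₂) :
    eqv h Point.zero = Point.zero := by
  subst h
  rfl

theorem eqv_some {U₁ U₂ : WeierstrassCurve L} (h : U₁ = U₂) {x y : L}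
    (hxy : U₁.toAffine.Nonsingular x y) :
    eqv h (Point.some x y hxy) = Point.some x y (by subst h; exact hxy) := by
  subst h
  rfl

end eqv

/-- The curve over `ℚ`. -/
def cQ (A B : ℤ) : WeierstrassCurve ℚ := ⟨0, 0, 0, (A : ℚ), (B : ℚ)⟩

variable (A B : ℤ)

section tq

variable {K : Type} [Field K] [NumberField K]

theorem hb (L : Type) [Field L] [Algebra K L] [Algebra ℚ L] :
    (sW (A : K) (B : K)).baseChange L = (cQ A B).baseChange L := by
  apply WeierstrassCurve.ext <;> simp [sW, cQ, WeierstrassCurve.baseChange]

variable (K) in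
/-- The points of the curve over `K` and the points of the curve over `ℚ`. -/
noncomputable def tq (L : Type) [Field L] [Algebra K L] [Algebra ℚ L] :
    Pt (sW (A : K) (B : K)) L ≃+ Pt (cQ A B) L := eqv (hb A B L)

theorem tq_act {L L' : Type} [Field L] [Field L'] [Algebra K L] [Algebra ℚ L] [Algebra K L']
    [Algebra ℚ L'] (φ : L →ₐ[K] L') (φ' : L →ₐ[ℚ] L') (h : ∀ x, φ' x = φ x)
    (P : Pt (sW (A : K) (B : K)) L) :
    tq A B K L' (act (sW (A : K) (B : K)) φ P) = act (cQ A B) φ' (tq A B K L P) := by
  rcases P with _ | ⟨x, y, hxy⟩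
  · have e1 : (Point.zero : Pt (sW (A : K) (B : K)) L) = 0 := rfl
    rw [e1, map_zero, map_zero, map_zero, map_zero]
  · have e1 : tq A B K L (Point.some x y hxy) = Point.some x y (by
      rw [← hb (K := K) A B L]; exact hxy) := eqv_some (hb A B L) hxy
    rw [e1]
    have e2 : act (sW (A : K) (B : K)) φ (Point.some x y hxy) = Point.some (φ x) (φ y)
      ((WeierstrassCurve.Affine.baseChange_nonsingular _ φ.injective x y).mpr hxy) :=
        WeierstrassCurve.Affine.Point.map_some _ _
    rw [e2]
    have e3 := eqv_some (hb (K := K) A B L')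
      ((WeierstrassCurve.Affine.baseChange_nonsingular _ φ.injective x y).mpr hxy)
    refine e3.trans ?_
    refine Eq.trans ?_ (WeierstrassCurve.Affine.Point.map_some _ _).symm
    congr 1
    · exact (h x).symm
    · exact (h y).symm

end tq

end Pool.Agent.U693.SH
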